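import Mathlib
import Pool.Agent.ParityOdd.Galois

/-!
# Reduction of parity questions to subgroups containing a normal subgroup

Let `G` be a finite group, `p` an odd prime and `P ≤ Q` normal subgroups of `G` such that `P` is
a `p`-group and `Q / P` an elementary abelian two-group.  Modulo the self-duality relations
`h + h̄` and the dihedral relations for `p`, every character induced from a trivial or quadratic
character of a subgroup is an integer combination of characters induced from trivial or
quadratic characters of subgroups containing `Q`.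
-/

namespace Pool.Agent.Attic.MP_ddf76b_nt.PExtensionReduction

open ParityOdd

theorem result {G : Type*} [Group G] [Fintype G] (p : ℕ) (hp : p.Prime) (hp2 : p ≠ 2)
    (P Q : Subgroup G) (hPn : P.Normal) (hQn : Q.Normal) (_hPQ : P ≤ Q) (hP : IsPGroup p P)
    (hQ : ∀ q ∈ Q, q * q ∈ P) (U : Subgroup G) (c : G → ℂ) (hc : IsQuad U c) :
    ∃ σ ∈ quadOver Q, Ind U c - σ ∈ easy G ∅ ⊔ dihedral G p := by
  have : Fact p.Prime := ⟨hp⟩
  have hpP : ∀ x ∈ P, ∃ k : ℕ, x ^ (p ^ k) = 1 := by
    intro x hx
    obtain ⟨k, hk⟩ := hP ⟨x, hx⟩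
    exact ⟨k, congrArg Subtype.val hk⟩
  have hU : Ind U c ∈ quadFrom ⊥ (⊤ : Subgroup G) := by
    rw [← ind_top]
    exact ind_mem_quadFrom bot_le le_top hc
  obtain ⟨σ, hσ, h⟩ := reduction hp2 hPn hQn hpP hQ hU
  rw [quadOver_eq, ← rel_eq]
  exact ⟨σ, hσ, h⟩

end Pool.Agent.Attic.MP_ddf76b_nt.PExtensionReduction
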