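import Pool.Agent.ParityGal.Main

/-!
# Real elements of odd order and the parity of ranks
-/

set_option autoImplicit false

namespace Pool.Agent.Results.MP_ddf76b_nt.RealElements

open Pool.Agent.ParityGal Pool.Agent.ParityReal Subgroup MulAction

/-- Let `G` be a finite group, `E` a set of exponents prime to `|G|`, `K i` subgroups of `G` and
`X` the disjoint union of the `G / K i`. The parity formula for `X` follows from the one for the
subgroups of index two in some subgroup of `G` and the one for the subgroups in

* a set `F` of subgroups if and only if this is so for the trivial root numbers, if and only if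
  for some `S j` in `F` the numbers of fixed points of `g` on `X` and on the disjoint union of the
  `G / S j` are congruent modulo two for all core elements `g`;
* the set of the subgroups whose elements of odd order are in `N` if and only if all core elements
  outside `N` have an even number of fixed points on `X`;
* this set and the set of the subgroups which contain the normal subgroup `T` if and only if any
  two core elements `g`, `h` outside `N` which generate the same subgroup together with `T` have
  the same number of fixed points on `X` modulo two;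
* the set of the subgroups which contain the normal `2`-subgroup `T`, for all `X`.

For the exponents in `frob G` the core elements are the elements `g` of odd order which are
conjugate to their inverse and to `g ^ 2 ^ n` for some odd number `n`. -/
theorem result {G : Type} [Group G] [Finite G] (E : Set ℕ)
    (hE : ∀ a ∈ E, a.Coprime (Nat.card G)) {ι : Type} [Fintype ι] (K : ι → Subgroup G) :
    (∀ F : Set (Subgroup G), [ParityFrom E F K, RankFrom E F K,
      ∃ (n : ℕ) (S : Fin n → Subgroup G), (∀ j, S j ∈ F) ∧
        ∀ g : G, Core E g → Nat.card (fixedBy (Σ i, G ⧸ K i) g) ≡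
          ∑ j, Nat.card (fixedBy (G ⧸ S j) g) [MOD 2]].TFAE) ∧
    (∀ N : Set G, (∀ g ∈ N, ∀ x : G, x * g * x⁻¹ ∈ N) → (∀ g ∈ N, ∀ h ∈ zpowers g, h ∈ N) →
      (ParityFrom E (oddIn N) K ↔
        ∀ g : G, Core E g → g ∉ N → Even (Nat.card (fixedBy (Σ i, G ⧸ K i) g))) ∧
      ∀ T : Subgroup G, T.Normal → (ParityFrom E ({H | T ≤ H} ∪ oddIn N) K ↔
        ∀ g h : G, Core E g → Core E h → g ∉ N → h ∉ N → zpowers g ⊔ T = zpowers h ⊔ T →
          Nat.card (fixedBy (Σ i, G ⧸ K i) g) ≡
            Nat.card (fixedBy (Σ i, G ⧸ K i) h) [MOD 2])) ∧
    (∀ T : Subgroup G, T.Normal → IsPGroup 2 T → ParityFrom E {H | T ≤ H} K) ∧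
    (∀ g : G, Core (frob G) g ↔
      Odd (orderOf g) ∧ IsConj g g⁻¹ ∧ ∃ n : ℕ, Odd n ∧ IsConj g (g ^ 2 ^ n)) :=
  ⟨fun F => parityFrom_tfae E hE F K,
    fun N hN hN' => ⟨parityFrom_oddIn_iff E hE N hN hN' K,
      fun T hT => have := hT; parityFrom_rel_iff E hE T N hN hN' K⟩,
    fun T hT hT2 => have := hT; parityFrom_two E hE T hT2 K, core_frob_iff⟩

end Pool.Agent.Results.MP_ddf76b_nt.RealElements
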